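import Pool.Agent.X91.SA.Main

/-!
# The Thomas-Fermi molecular energy minus the atomic energies is not superadditive

All definitions (`Dens`, `TFE`, `Vals`, `en`, `enAt`, `enSum`, `SuperAdd`) are in `Pool.Agent.X91.SA.Def`.
-/

set_option autoImplicit false

open MeasureTheory

namespace Pool.Agent.Results.MP_f156ce_mp.NotSuperadditive

open Pool.Agent.X91.SA

/-- The infima defining `en` are over nonempty sets bounded below, and for every `k ≥ 2` and every choice of
distinct nuclei `R_1, …, R_k` the function `z ↦ e(z) - ∑ e^at(z_j)` is not superadditive on the orthant. -/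
theorem result :
    (∀ (k : ℕ) (z : Fin k → ℝ) (R : Fin k → R3), (∀ i, 0 ≤ z i) → (Vals z R).Nonempty ∧ BddBelow (Vals z R)) ∧
    ∀ (k : ℕ), 2 ≤ k → ∀ R : Fin k → R3, Function.Injective R → ¬ SuperAdd (fun z => en z R - enSum z) :=
  ⟨fun _ z R hz => ⟨vals_nonempty z hz R, vals_bdd z hz R⟩, fun _ hk R hR => main hk R hR⟩

end Pool.Agent.Results.MP_f156ce_mp.NotSuperadditive
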